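import Pool.Agent.Q107.TotCrit.Final

/-!
# For every `p` there are only finitely many `K_p`-free 3-total-domination edge-critical graphs

The definitions of the statement are in `Pool.Agent.Q107.TotCrit.Defs`.
-/

set_option autoImplicit false

namespace Pool.Agent.Results.MP_664517_co.FinitelyMany

open Pool.Agent.Q107.TotCrit

/-- For every `p` there is a number `N` such that every `K_p`-free 3-total-domination edge-critical
finite graph has at most `N` vertices; hence there are only finitely many such graphs: the set of
all such graphs with a vertex set `{0, …, n - 1}`, `n = 0, 1, 2, …`, is finite. -/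
theorem result (p : ℕ) :
    (∃ N : ℕ, ∀ (V : Type) (_ : Finite V) (G : SimpleGraph V),
      ThreeTEC G → G.CliqueFree p → Nat.card V ≤ N) ∧
    {X : Σ n : ℕ, SimpleGraph (Fin n) | ThreeTEC X.2 ∧ X.2.CliqueFree p}.Finite := by
  have h : ∀ (V : Type) (_ : Finite V) (G : SimpleGraph V),
      ThreeTEC G → G.CliqueFree p → Nat.card V ≤ orderBound p := by
    intro V _ G hG hp
    have := Fintype.ofFinite V
    rw [Nat.card_eq_fintype_card]
    exact card_le G (witnessed hG) p hp
  refine ⟨⟨_, h⟩, ?_⟩
  have h2 : (⋃ n ∈ Set.Iic (orderBound p), Set.range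
      (fun G : SimpleGraph (Fin n) => (⟨n, G⟩ : Σ n : ℕ, SimpleGraph (Fin n)))).Finite :=
    Set.Finite.biUnion (Set.finite_Iic _) fun n _ => Set.finite_range _
  refine h2.subset ?_
  rintro ⟨n, G⟩ ⟨hG, hp⟩
  rw [Set.mem_iUnion₂]
  refine ⟨n, ?_, G, rfl⟩
  have := h (Fin n) inferInstance G hG hp
  rwa [Nat.card_fin] at this

end Pool.Agent.Results.MP_664517_co.FinitelyMany
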